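import Pool.Agent.Q231.P8.Red

/-!
# From a satisfying assignment to a colouring
-/

set_option autoImplicit false

namespace Pool.Agent.Q231.P8

open Pool.Agent.NPC Pool.Agent.NPC.H634R2

/-- the colour of the second vertex of a literal -/
def X (τ : ℕ → Bool) (l : Lit ℕ) : Fin 4 := bif (τ l.2 == l.1) then 1 else 0

/-- the other colour -/
def NX (τ : ℕ → Bool) (l : Lit ℕ) : Fin 4 := bif (τ l.2 == l.1) then 0 else 1

/-- the colours in a clause gadget; `k` is the number of a true literal -/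
def clCol (τ : ℕ → Bool) (c : Lit ℕ × Lit ℕ × Lit ℕ) (k : ℕ) (s : ℕ) : Fin 4 :=
  match k, s with
  | 0, 0 => 2 | 0, 1 => 3 | 0, 2 => 2 | 0, 3 => 2 | 0, 4 => 1 | 0, 5 => 0
  | 0, 6 => 1 | 0, 7 => 3 | 0, 8 => 3 | 0, 9 => NX τ c.2.2
  | 1, 0 => 3 | 1, 1 => 2 | 1, 2 => 2 | 1, 3 => 3 | 1, 4 => 3 | 1, 5 => NX τ c.1
  | 1, 6 => 1 | 1, 7 => 0 | 1, 8 => 2 | 1, 9 => NX τ c.2.2
  | _, 0 => 3 | _, 1 => 2 | _, 2 => 2 | _, 3 => 2 | _, 4 => 1 | _, 5 => 3
  | _, 6 => 3 | _, 7 => NX τ c.2.1 | _, 8 => 1 | _, 9 => 0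
  | _, _ => 0

/-- the colours in a variable gadget -/
def vaCol (b : Bool) (s : ℕ) : Fin 4 :=
  match s with
  | 10 => 2 | 11 => bif b then 2 else 3 | 12 => bif b then 3 else 2
  | 13 => bif b then 3 else 1 | 14 => bif b then 1 else 3
  | 15 => 0 | 16 => bif b then 1 else 0 | 17 => 0 | 18 => bif b then 0 else 1
  | 19 => 0 | 20 => 1
  | _ => 0

/-- the number of a true literal of a clause -/
def pick (τ : ℕ → Bool) (c : Lit ℕ × Lit ℕ × Lit ℕ) : ℕ :=
  bif (τ c.1.2 == c.1.1) then 0 else bif (τ c.2.1.2 == c.2.1.1) then 1 else 2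

/-- the colouring -/
def colr (φ : Fm) (τ : ℕ → Bool) (p : ℕ × ℕ) : Fin 4 :=
  bif decide (p.1 < 10) then
    clCol τ (φ.getD p.2 ((true, 0), (true, 0), (true, 0))) (pick τ (φ.getD p.2 ((true, 0), (true, 0), (true, 0)))) p.1
  else vaCol (τ p.2) p.1

theorem pick_cases (τ : ℕ → Bool) (c : Lit ℕ × Lit ℕ × Lit ℕ)
    (h : τ c.1.2 = c.1.1 ∨ τ c.2.1.2 = c.2.1.1 ∨ τ c.2.2.2 = c.2.2.1) :
    (pick τ c = 0 ∧ X τ c.1 = 1) ∨ (pick τ c = 1 ∧ X τ c.2.1 = 1) ∨
      (pick τ c = 2 ∧ X τ c.2.2 = 1) := by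
  unfold pick X
  by_cases h1 : τ c.1.2 = c.1.1
  · left
    rw [h1]
    simp
  · by_cases h2 : τ c.2.1.2 = c.2.1.1
    · right; left
      have : (τ c.1.2 == c.1.1) = false := by simpa using h1
      rw [this, h2]
      simp
    · right; right
      have h3 : τ c.2.2.2 = c.2.2.1 := by tauto
      have e1 : (τ c.1.2 == c.1.1) = false := by simpa using h1
      have e2 : (τ c.2.1.2 == c.2.1.1) = false := by simpa using h2
      rw [e1, e2, h3]
      simp

theorem X_ne (τ : ℕ → Bool) (l : Lit ℕ) : NX τ l ≠ X τ l ∧ (NX τ l = 0 ∨ NX τ l = 1) ∧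
    (X τ l = 0 ∨ X τ l = 1) := by
  unfold NX X
  cases (τ l.2 == l.1) <;> simp

theorem va_dv (τ : ℕ → Bool) (l : Lit ℕ) : vaCol (τ (dv l).2) (dv l).1 = 0 := by
  obtain ⟨b, v⟩ := l
  cases b <;> simp [dv, vaCol]

theorem va_xv (τ : ℕ → Bool) (l : Lit ℕ) : vaCol (τ (xv l).2) (xv l).1 = X τ l := by
  obtain ⟨b, v⟩ := l
  unfold X
  cases b <;> simp only [xv] <;> cases τ v <;> simp [vaCol]

theorem dv_fst (l : Lit ℕ) : ¬ (dv l).1 < 10 := by
  obtain ⟨b, v⟩ := l
  cases b <;> simp [dv]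

theorem xv_fst (l : Lit ℕ) : ¬ (xv l).1 < 10 := by
  obtain ⟨b, v⟩ := l
  cases b <;> simp [xv]

/-- the colours `0`, `1` on one side, `2`, `3` on the other side -/
theorem colr_W (φ : Fm) (τ : ℕ → Bool) (p : ℕ × ℕ) (hp : p ∈ PP φ) (h : bW p.1 = true) :
    colr φ τ p = 0 ∨ colr φ τ p = 1 := by
  obtain ⟨s, i⟩ := p
  rw [mem_PP] at hp
  unfold bW at h
  simp only [decide_eq_true_eq] at h hp
  have h1 : 15 ≤ s ∧ s < 21 := by omega
  obtain ⟨h1, h2⟩ := h1
  unfold colr
  have h3 : decide (s < 10) = false := by rw [decide_eq_false_iff_not]; omega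
  simp only [h3, cond_false]
  interval_cases s <;> cases τ i <;> simp [vaCol]

theorem colr_U (φ : Fm) (τ : ℕ → Bool) (p : ℕ × ℕ) (h : bU p.1 = true) :
    colr φ τ p = 2 ∨ colr φ τ p = 3 := by
  obtain ⟨s, i⟩ := p
  unfold bU at h
  simp only [Bool.or_eq_true, Bool.and_eq_true, decide_eq_true_eq] at h
  unfold colr
  rcases h with h | h
  · have h3 : decide (s < 10) = true := by rw [decide_eq_true_iff]; omega
    simp only [h3, cond_true]
    generalize φ.getD i ((true, 0), (true, 0), (true, 0)) = c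
    have hk : pick τ c = 0 ∨ pick τ c = 1 ∨ pick τ c = 2 := by
      unfold pick
      cases (τ c.1.2 == c.1.1) <;> cases (τ c.2.1.2 == c.2.1.1) <;> simp
    rcases hk with hk | hk | hk <;> rw [hk] <;> interval_cases s <;> simp [clCol]
  · have h3 : decide (s < 10) = false := by rw [decide_eq_false_iff_not]; omega
    obtain ⟨h1, h2⟩ := h
    simp only [h3, cond_false]
    interval_cases s <;> cases τ i <;> simp [vaCol]

theorem colr_loc (φ : Fm) (τ : ℕ → Bool) (i : ℕ)
    (hs : ∀ c, φ[i]? = some c → τ c.1.2 = c.1.1 ∨ τ c.2.1.2 = c.2.1.1 ∨ τ c.2.2.2 = c.2.2.1)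
    {s t : ℕ} (hi : s < 10 → i < φ.length) (h : (s, t) ∈ LE) :
    colr φ τ (s, i) ≠ colr φ τ (t, i) := by
  by_cases h10 : s < 10
  · have hi := hi h10
    have hc : φ.getD i ((true, 0), (true, 0), (true, 0)) = φ[i] := by
      rw [List.getD_eq_getElem?_getD, List.getElem?_eq_getElem hi]
      rfl
    have hs' := hs φ[i] (List.getElem?_eq_getElem hi)
    have ht : t < 10 := by
      unfold LE at h
      simp only [List.mem_cons, Prod.mk.injEq, List.not_mem_nil, or_false] at h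
      omega
    unfold colr
    simp only [h10, ht, decide_true, cond_true, hc]
    generalize φ[i] = c at hs'
    have n1 := X_ne τ c.1
    have n2 := X_ne τ c.2.1
    have n3 := X_ne τ c.2.2
    have hp := pick_cases τ c hs'
    unfold LE at h
    simp only [List.mem_cons, Prod.mk.injEq, List.not_mem_nil, or_false] at h
    rcases hp with ⟨hp, hx⟩ | ⟨hp, hx⟩ | ⟨hp, hx⟩ <;> rw [hp] <;>
      rcases h with h | h | h | h | h | h | h | h | h | h | h | h | h | h | h | h | h | h | h | h |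
        h | h | h | h | h | h | h <;> obtain ⟨rfl, rfl⟩ := h <;>
      first
        | (exfalso; revert h10; decide)
        | (simp only [clCol]; decide)
        | (simp only [clCol]; rcases n1.2.1 with e | e <;> rw [e] <;> decide)
        | (simp only [clCol]; rcases n2.2.1 with e | e <;> rw [e] <;> decide)
        | (simp only [clCol]; rcases n3.2.1 with e | e <;> rw [e] <;> decide)
  · unfold LE at h
    simp only [List.mem_cons, Prod.mk.injEq, List.not_mem_nil, or_false] at h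
    have ht : ¬ t < 10 := by omega
    unfold colr
    simp only [h10, ht, decide_false, cond_false]
    generalize τ i = b
    rcases h with h | h | h | h | h | h | h | h | h | h | h | h | h | h | h | h | h | h | h | h |
        h | h | h | h | h | h | h <;> obtain ⟨rfl, rfl⟩ := h <;>
      first
        | (exfalso; revert h10; decide)
        | (cases b <;> decide)

theorem complete {φ : Fm} (h : SAT3 φ) : ∃ f : ℕ × ℕ → Fin 4,
    ∀ p ∈ PP φ, ∀ q ∈ PP φ, AA φ p q = true → f p ≠ f q := by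
  obtain ⟨τ, hτ⟩ := h
  refine ⟨colr φ τ, ?_⟩
  have hsat : ∀ (i : ℕ) (c : Lit ℕ × Lit ℕ × Lit ℕ), φ[i]? = some c →
      τ c.1.2 = c.1.1 ∨ τ c.2.1.2 = c.2.1.1 ∨ τ c.2.2.2 = c.2.2.1 := by
    intro i c hc
    exact hτ c (List.mem_iff_getElem?.2 ⟨i, hc⟩)
  have hcross : ∀ p q : ℕ × ℕ, (p, q) ∈ crossL φ → colr φ τ p ≠ colr φ τ q := by
    rintro ⟨s, i⟩ q h
    rw [mem_crossL] at h
    obtain ⟨c, hc, h⟩ := h
    simp only at hc h
    have hs' := hsat i c hc
    have hp := pick_cases τ c hs'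
    have hgd : φ.getD i ((true, 0), (true, 0), (true, 0)) = c := by
      rw [List.getD_eq_getElem?_getD, hc]
      rfl
    have n1 := X_ne τ c.1
    have n2 := X_ne τ c.2.1
    have n3 := X_ne τ c.2.2
    rcases h with ⟨rfl, rfl⟩ | ⟨rfl, rfl⟩ | ⟨rfl, rfl⟩ | ⟨rfl, rfl⟩ | ⟨rfl, rfl⟩ | ⟨rfl, rfl⟩ <;>
      simp only [colr, hgd, dv_fst, xv_fst, va_dv, va_xv, decide_true, decide_false, cond_true,
        cond_false, show (4 : ℕ) < 10 from by decide, show (5 : ℕ) < 10 from by decide,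
        show (6 : ℕ) < 10 from by decide, show (7 : ℕ) < 10 from by decide,
        show (8 : ℕ) < 10 from by decide, show (9 : ℕ) < 10 from by decide] <;>
      rcases hp with ⟨hp, hx⟩ | ⟨hp, hx⟩ | ⟨hp, hx⟩ <;> rw [hp] <;> simp only [clCol] <;>
      first
        | decide
        | exact n1.1
        | exact n2.1
        | exact n3.1
        | (rw [hx]; decide)
        | (rcases n1.2.2 with e | e <;> rw [e] <;> decide)
        | (rcases n2.2.2 with e | e <;> rw [e] <;> decide)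
        | (rcases n3.2.2 with e | e <;> rw [e] <;> decide)
  intro p hp q hq hA
  unfold AA at hA
  simp only [Bool.or_eq_true, Bool.and_eq_true, decide_eq_true_eq] at hA
  rcases hA with (((hA | hA) | hA) | hA) | hA
  · have h1 := colr_W φ τ p hp hA.1
    have h2 := colr_U φ τ q hA.2
    rcases h1 with h1 | h1 <;> rcases h2 with h2 | h2 <;> rw [h1, h2] <;> decide
  · have h1 := colr_U φ τ p hA.1
    have h2 := colr_W φ τ q hq hA.2
    rcases h1 with h1 | h1 <;> rcases h2 with h2 | h2 <;> rw [h1, h2] <;> decide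
  · obtain ⟨s, i⟩ := p
    obtain ⟨t, j⟩ := q
    obtain ⟨h1, h2⟩ := hA
    simp only at h1 h2
    subst h1
    unfold loc at h2
    simp only [Bool.or_eq_true, decide_eq_true_eq] at h2
    rw [mem_PP] at hp hq
    simp only at hp hq
    rcases h2 with h2 | h2
    · exact colr_loc φ τ i (hsat i) (fun h => by omega) h2
    · exact (colr_loc φ τ i (hsat i) (fun h => by omega) h2).symm
  · exact hcross p q hA
  · exact (hcross q p hA).symm

/-- **The reduction is correct.** -/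
theorem colorable_red {φ : Fm} (hφ : φ ≠ []) :
    SAT3 φ ↔ (toG (gV (PP φ)) (gE (PP φ) (AA φ))).Colorable 4 := by
  rw [colorable_iff (ok φ)]
  exact ⟨complete, fun ⟨f, hf⟩ => sound hφ f hf⟩

end Pool.Agent.Q231.P8
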