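import Pool.Agent.H634R2.GraphDefs
import Mathlib

/-!
# 4-colouring graphs without two given induced subgraphs

Graphs are given by a list of vertices and a list of edges.
-/

set_option autoImplicit false

namespace Pool.Agent.Q231.P8

open Pool.Agent.NPC Pool.Agent.NPC.H634R2

/-- The simple graph given by the list of vertices `V` and the list of edges `E`. -/
def toG (V : List ℕ) (E : List (ℕ × ℕ)) : SimpleGraph {v : ℕ // v ∈ V} where
  Adj a b := a ≠ b ∧ ((a.1, b.1) ∈ E ∨ (b.1, a.1) ∈ E)
  symm := ⟨fun _ _ h => ⟨h.1.symm, h.2.symm⟩⟩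
  loopless := ⟨fun _ h => h.1 rfl⟩

/-- `(V, E)` is a graph without induced path on `s` vertices and without induced cycle on `t`
vertices. -/
def PCFree (s t : ℕ) (x : List ℕ × List (ℕ × ℕ)) : Prop :=
  IsGraph x.1 x.2 ∧ IsEmpty (SimpleGraph.pathGraph s ↪g toG x.1 x.2) ∧
    IsEmpty (SimpleGraph.cycleGraph t ↪g toG x.1 x.2)

/-- The decision problem `4`-COLORING on graphs without induced `P_s` and `C_t`. -/
def FourCol (s t : ℕ) (x : List ℕ × List (ℕ × ℕ)) : Prop :=
  PCFree s t x ∧ (toG x.1 x.2).Colorable 4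

end Pool.Agent.Q231.P8
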