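import Pool.Agent.Q231.P8.Red

/-!
# The graphs of the reduction contain no induced `P_8` and no induced `C_7`
-/

set_option autoImplicit false

namespace Pool.Agent.Q231.P8

open Pool.Agent.NPC Pool.Agent.NPC.H634R2

theorem AA_iff {φ : Fm} {p q : ℕ × ℕ} : AA φ p q = true ↔
    (bW p.1 = true ∧ bU q.1 = true) ∨ (bU p.1 = true ∧ bW q.1 = true) ∨
      (p.2 = q.2 ∧ loc p.1 q.1 = true) ∨ (p, q) ∈ crossL φ ∨ (q, p) ∈ crossL φ := by
  unfold AA
  simp only [Bool.or_eq_true, Bool.and_eq_true, decide_eq_true_eq, or_assoc]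

theorem cross_W {φ : Fm} {p q : ℕ × ℕ} (h : (p, q) ∈ crossL φ) :
    4 ≤ p.1 ∧ p.1 < 10 ∧ bW q.1 = true := by
  rw [mem_crossL] at h
  obtain ⟨c, _, h⟩ := h
  have hd : ∀ l : Lit ℕ, bW (dv l).1 = true ∧ bW (xv l).1 = true := by
    rintro ⟨b, v⟩
    cases b <;> simp [dv, xv, bW]
  rcases h with ⟨h1, rfl⟩ | ⟨h1, rfl⟩ | ⟨h1, rfl⟩ | ⟨h1, rfl⟩ | ⟨h1, rfl⟩ | ⟨h1, rfl⟩ <;>
    exact ⟨by omega, by omega, by first | exact (hd _).1 | exact (hd _).2⟩

/-- neither in `W` nor in `U` -/
def CC (p : ℕ × ℕ) : Prop := bW p.1 = false ∧ bU p.1 = false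

/-- the partner -/
def mate (s : ℕ) : ℕ := if s % 2 = 0 then s + 1 else s - 1

theorem loc_iff {s t : ℕ} : loc s t = true ↔ (s, t) ∈ LE ∨ (t, s) ∈ LE := by
  unfold loc
  rw [Bool.or_eq_true, decide_eq_true_iff, decide_eq_true_iff]

theorem CC_adj {φ : Fm} {p q : ℕ × ℕ} (hp : CC p) (hq : CC q) (h : AA φ p q = true) :
    q = (mate p.1, p.2) := by
  rw [AA_iff] at h
  rcases h with h | h | h | h | h
  · rw [hp.1] at h; exact absurd h.1 (by simp)
  · rw [hp.2] at h; exact absurd h.1 (by simp)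
  · obtain ⟨s, i⟩ := p
    obtain ⟨t, j⟩ := q
    obtain ⟨h1, h2⟩ := h
    simp only at h1 h2
    subst h1
    rw [loc_iff] at h2
    unfold CC bW bU at hp hq
    simp only [decide_eq_false_iff_not, Bool.or_eq_false_iff, Bool.and_eq_false_iff] at hp hq
    unfold LE at h2
    simp only [List.mem_cons, Prod.mk.injEq, List.not_mem_nil, or_false] at h2
    simp only [Prod.mk.injEq, and_true]
    unfold mate
    split_ifs <;> omega
  · have := (cross_W h).2.2
    rw [hq.1] at this
    exact absurd this (by simp)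
  · have := (cross_W h).2.2
    rw [hp.1] at this
    exact absurd this (by simp)

theorem CC_chain {φ : Fm} {p q r : ℕ × ℕ} (hp : CC p) (hq : CC q) (hr : CC r)
    (h1 : AA φ p q = true) (h2 : AA φ q r = true) : p = r := by
  have h3 : AA φ q p = true := by rw [(ok φ).symm]; exact h1
  rw [CC_adj hq hp h3, CC_adj hq hr h2]

theorem UC_adj {φ : Fm} {p q : ℕ × ℕ} (hp : bW p.1 = false) (hq : bW q.1 = false) :
    AA φ p q = true ↔ (p.2 = q.2 ∧ loc p.1 q.1 = true) := by
  rw [AA_iff]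
  constructor
  · rintro (h | h | h | h | h)
    · rw [hp] at h; exact absurd h.1 (by simp)
    · rw [hq] at h; exact absurd h.2 (by simp)
    · exact h
    · have := (cross_W h).2.2
      rw [hq] at this
      exact absurd this (by simp)
    · have := (cross_W h).2.2
      rw [hp] at this
      exact absurd this (by simp)
  · intro h
    exact Or.inr (Or.inr (Or.inl h))

/-- the literal to which a vertex of `W` or `C` belongs -/
def grp (φ : Fm) (p : ℕ × ℕ) : Lit ℕ :=
  if p.1 = 4 ∨ p.1 = 5 then (φ.getD p.2 ((true, 0), (true, 0), (true, 0))).1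
  else if p.1 = 6 ∨ p.1 = 7 then (φ.getD p.2 ((true, 0), (true, 0), (true, 0))).2.1
  else if p.1 = 8 ∨ p.1 = 9 then (φ.getD p.2 ((true, 0), (true, 0), (true, 0))).2.2
  else if p.1 = 13 ∨ p.1 = 15 ∨ p.1 = 16 then (true, p.2)
  else (false, p.2)

/-- the component of a vertex of `W` or `C` in the graph on these vertices -/
def cmp (φ : Fm) (p : ℕ × ℕ) : Bool × Lit ℕ :=
  if p.1 = 19 ∨ p.1 = 20 then (false, (true, p.2)) else (true, grp φ p)

theorem grp_dv (φ : Fm) (l : Lit ℕ) : cmp φ (dv l) = (true, l) ∧ cmp φ (xv l) = (true, l) := by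
  obtain ⟨b, v⟩ := l
  cases b <;> simp [dv, xv, cmp, grp]

theorem cross_cmp {φ : Fm} {p q : ℕ × ℕ} (h : (p, q) ∈ crossL φ) : cmp φ p = cmp φ q := by
  rw [mem_crossL] at h
  obtain ⟨c, hc, h⟩ := h
  have hgd : φ.getD p.2 ((true, 0), (true, 0), (true, 0)) = c := by
    rw [List.getD_eq_getElem?_getD, hc]
    rfl
  rcases h with ⟨h1, rfl⟩ | ⟨h1, rfl⟩ | ⟨h1, rfl⟩ | ⟨h1, rfl⟩ | ⟨h1, rfl⟩ | ⟨h1, rfl⟩ <;>
    (first | rw [(grp_dv φ _).1] | rw [(grp_dv φ _).2]) <;> simp only [cmp, grp, h1, hgd] <;>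
    simp

theorem WC_adj {φ : Fm} {p q : ℕ × ℕ} (hp : bU p.1 = false) (hq : bU q.1 = false)
    (h : AA φ p q = true) : cmp φ p = cmp φ q := by
  rw [AA_iff] at h
  rcases h with h | h | h | h | h
  · rw [hq] at h; exact absurd h.2 (by simp)
  · rw [hp] at h; exact absurd h.1 (by simp)
  · obtain ⟨s, i⟩ := p
    obtain ⟨t, j⟩ := q
    obtain ⟨h1, h2⟩ := h
    simp only at h1 h2
    subst h1
    rw [loc_iff] at h2
    simp only at hp hq
    unfold LE at h2
    simp only [List.mem_cons, Prod.mk.injEq, List.not_mem_nil, or_false] at h2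
    rcases h2 with h2 | h2 <;>
      rcases h2 with h | h | h | h | h | h | h | h | h | h | h | h | h | h | h | h | h | h | h | h |
        h | h | h | h | h | h | h <;> obtain ⟨rfl, rfl⟩ := h <;>
      first
        | (exfalso; revert hp; decide)
        | (exfalso; revert hq; decide)
        | simp [cmp, grp]
  · exact cross_cmp h
  · exact (cross_cmp h).symm

theorem W_cmp {φ : Fm} {p : ℕ × ℕ} (hp : p ∈ PP φ) (h : bW p.1 = true) {l : Lit ℕ}
    (hc : cmp φ p = (true, l)) : p = dv l ∨ p = xv l := by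
  obtain ⟨s, i⟩ := p
  rw [mem_PP] at hp
  unfold bW at h
  simp only [decide_eq_true_eq] at h hp
  have h1 : 15 ≤ s ∧ s < 21 := by omega
  obtain ⟨h1, h2⟩ := h1
  obtain ⟨b, v⟩ := l
  unfold cmp grp at hc
  interval_cases s <;> simp at hc <;> obtain ⟨rfl, rfl⟩ := hc <;> simp [dv, xv]

theorem w_cmp {φ : Fm} {p : ℕ × ℕ} {l : Lit ℕ}
    (hc : cmp φ p = (false, l)) : p = (19, l.2) ∨ p = (20, l.2) := by
  obtain ⟨s, i⟩ := p
  obtain ⟨b, v⟩ := l
  unfold cmp at hc
  split_ifs at hc with h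
  · simp only [Prod.mk.injEq] at hc h ⊢
    omega
  · simp at hc

theorem C_attached {φ : Fm} {p : ℕ × ℕ} (hp : p ∈ PP φ) (h : CC p) {l : Lit ℕ}
    (hc : cmp φ p = (true, l)) : AA φ p (dv l) = true ∨ AA φ p (xv l) = true := by
  obtain ⟨s, i⟩ := p
  rw [mem_PP] at hp
  unfold CC bW bU at h
  simp only [decide_eq_false_iff_not, Bool.or_eq_false_iff, Bool.and_eq_false_iff] at h hp
  have h1 : (4 ≤ s ∧ s < 10 ∧ i < φ.length) ∨ s = 13 ∨ s = 14 := by omega
  rcases h1 with ⟨h1, h2, h3⟩ | rfl | rfl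
  · have hgd : φ[i]? = some (φ.getD i ((true, 0), (true, 0), (true, 0))) := by
      rw [List.getD_eq_getElem?_getD, List.getElem?_eq_getElem h3]
      rfl
    unfold cmp grp at hc
    generalize φ.getD i ((true, 0), (true, 0), (true, 0)) = c at hgd hc
    interval_cases s <;> simp at hc <;> subst hc
    · exact Or.inl (AA_cross (mem_crossL.2 ⟨c, hgd, by simp⟩))
    · exact Or.inr (AA_cross (mem_crossL.2 ⟨c, hgd, by simp⟩))
    · exact Or.inl (AA_cross (mem_crossL.2 ⟨c, hgd, by simp⟩))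
    · exact Or.inr (AA_cross (mem_crossL.2 ⟨c, hgd, by simp⟩))
    · exact Or.inl (AA_cross (mem_crossL.2 ⟨c, hgd, by simp⟩))
    · exact Or.inr (AA_cross (mem_crossL.2 ⟨c, hgd, by simp⟩))
  · unfold cmp grp at hc
    simp at hc
    subst hc
    exact Or.inl (AA_loc (t := 15) (by decide))
  · unfold cmp grp at hc
    simp at hc
    subst hc
    exact Or.inl (AA_loc (t := 17) (by decide))

/-! ### Induced subgraphs -/

section

variable {φ : Fm} {n : ℕ} {p : Fin n → ℕ × ℕ} {R : Fin n → Fin n → Prop}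

theorem noCCC (hinj : Function.Injective p) (hR : ∀ i j, AA φ (p i) (p j) = true ↔ R i j)
    {x y z : Fin n} (h1 : R x y) (h2 : R y z) (h3 : x ≠ z) (hx : CC (p x)) (hy : CC (p y))
    (hz : CC (p z)) : False :=
  h3 (hinj (CC_chain hx hy hz ((hR x y).2 h1) ((hR y z).2 h2)))

/-- a vertex that is adjacent neither to a given vertex of `W` nor to one of `U` is in `C` -/
theorem far_CC (hR : ∀ i j, AA φ (p i) (p j) = true ↔ R i j) {i j x : Fin n}
    (hi : bW (p i).1 = true) (hj : bU (p j).1 = true) (h1 : ¬ R x j) (h2 : ¬ R i x) :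
    CC (p x) := by
  refine ⟨?_, ?_⟩
  · rw [Bool.eq_false_iff]
    intro h
    exact h1 ((hR x j).1 (AA_WU h hj))
  · rw [Bool.eq_false_iff]
    intro h
    exact h2 ((hR i x).1 (AA_WU hi h))

theorem conn {β : Type} (F : ℕ × ℕ → β) (hR : ∀ i j, AA φ (p i) (p j) = true ↔ R i j)
    (hs : ∀ i j : Fin n, i.1 + 1 = j.1 → R i j)
    (hF : ∀ i j : Fin n, AA φ (p i) (p j) = true → F (p i) = F (p j)) (i j : Fin n) :
    F (p i) = F (p j) := by
  have key : ∀ k (hk : k < n) (h0 : 0 < n), F (p ⟨k, hk⟩) = F (p ⟨0, h0⟩) := by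
    intro k
    induction k with
    | zero => intro _ _; rfl
    | succ k ih =>
      intro hk h0
      rw [← ih (by omega) h0]
      exact (hF _ _ ((hR _ _).2 (hs ⟨k, by omega⟩ ⟨k + 1, hk⟩ rfl))).symm
  have h0 : 0 < n := by have := i.2; omega
  exact (key i.1 i.2 h0).trans (key j.1 j.2 h0).symm

end

/-- adjacency in the path on `8` vertices -/
def rp (i j : Fin 8) : Bool := decide (i.1 + 1 = j.1) || decide (j.1 + 1 = i.1)

/-- adjacency in the cycle on `7` vertices -/
def rc (i j : Fin 7) : Bool := decide (i.1 + 1 = j.1) || decide (j.1 + 1 = i.1) ||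
  (decide (i.1 = 0) && decide (j.1 = 6)) || (decide (i.1 = 6) && decide (j.1 = 0))

theorem factP1 : ∀ i j : Fin 8, rp i j = true → (∃ x y z : Fin 8, (rp x y && rp y z &&
    !decide (x = z) && !rp x j && !rp i x && !rp y j && !rp i y && !rp z j && !rp i z) = true) ∨
      (decide (i = 3) && decide (j = 4) || decide (i = 4) && decide (j = 3)) = true := by
  decide +kernel

theorem factC1 : ∀ i j : Fin 7, rc i j = true → ∃ x y z : Fin 7, (rc x y && rc y z &&
    !decide (x = z) && !rc x j && !rc i x && !rc y j && !rc i y && !rc z j && !rc i z) = true := by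
  decide +kernel

theorem factP2 : ∀ a b : Fin 8, (∃ x y z : Fin 8, (rp x y && rp y z && !decide (x = z) &&
    !decide (x = a) && !decide (x = b) && !decide (y = a) && !decide (y = b) &&
    !decide (z = a) && !decide (z = b)) = true) ∨
      (!decide (0 = a) && !decide (0 = b) && !rp 0 a && !rp 0 b) = true := by
  decide +kernel

theorem factC2 : ∀ a b : Fin 7, ∃ x y z : Fin 7, (rc x y && rc y z && !decide (x = z) &&
    !decide (x = a) && !decide (x = b) && !decide (y = a) && !decide (y = b) &&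
    !decide (z = a) && !decide (z = b)) = true := by
  decide +kernel

/-- The case in which no vertex lies in `U`, in general. -/
theorem case_W {φ : Fm} {n : ℕ} {p : Fin n → ℕ × ℕ} {R : Fin n → Fin n → Prop} (hn : 3 ≤ n)
    (hP : ∀ i, p i ∈ PP φ) (hinj : Function.Injective p)
    (hR : ∀ i j, AA φ (p i) (p j) = true ↔ R i j)
    (hs : ∀ i j : Fin n, i.1 + 1 = j.1 → R i j) (hU : ∀ i, bU (p i).1 = false)
    (hF1 : ∀ a : Fin n, ∃ x y z : Fin n, R x y ∧ R y z ∧ x ≠ z ∧ x ≠ a ∧ y ≠ a ∧ z ≠ a)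
    (hF : ∀ a b : Fin n, (∃ x y z : Fin n, R x y ∧ R y z ∧ x ≠ z ∧ (x ≠ a ∧ x ≠ b) ∧
      (y ≠ a ∧ y ≠ b) ∧ (z ≠ a ∧ z ≠ b)) ∨ (∃ i : Fin n, i ≠ a ∧ i ≠ b ∧ ¬ R i a ∧ ¬ R i b)) :
    False := by
  have hc : ∀ i j, cmp φ (p i) = cmp φ (p j) :=
    conn (cmp φ) hR hs (fun i j h => WC_adj (hU i) (hU j) h)
  obtain ⟨⟨k, l⟩, hk⟩ : ∃ k, k = cmp φ (p ⟨0, by omega⟩) := ⟨_, rfl⟩
  have hc' : ∀ i, cmp φ (p i) = (k, l) := fun i => by rw [hk]; exact hc i _
  cases k with
  | false =>
    have h0 := w_cmp (hc' ⟨0, by omega⟩)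
    have h1 := w_cmp (hc' ⟨1, by omega⟩)
    have h2 := w_cmp (hc' ⟨2, by omega⟩)
    have n01 : p ⟨0, by omega⟩ ≠ p ⟨1, by omega⟩ := fun h => by
      have := hinj h; simp at this
    have n02 : p ⟨0, by omega⟩ ≠ p ⟨2, by omega⟩ := fun h => by
      have := hinj h; simp at this
    have n12 : p ⟨1, by omega⟩ ≠ p ⟨2, by omega⟩ := fun h => by
      have := hinj h; simp at this
    rcases h0 with h0 | h0 <;> rcases h1 with h1 | h1 <;> rcases h2 with h2 | h2 <;>
      first
        | exact n01 (h0.trans h1.symm)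
        | exact n02 (h0.trans h2.symm)
        | exact n12 (h1.trans h2.symm)
  | true =>
    have hCC : ∀ i, p i ≠ dv l → p i ≠ xv l → CC (p i) := by
      intro i h1 h2
      refine ⟨?_, hU i⟩
      rw [Bool.eq_false_iff]
      intro h
      rcases W_cmp (hP i) h (hc' i) with h3 | h3
      · exact h1 h3
      · exact h2 h3
    by_cases ha : ∃ a, p a = dv l
    · obtain ⟨a, ha⟩ := ha
      have ha' : ∀ i, i ≠ a → p i ≠ dv l := fun i hi h => hi (hinj (h.trans ha.symm))
      by_cases hb : ∃ b, p b = xv l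
      · obtain ⟨b, hb⟩ := hb
        have hb' : ∀ i, i ≠ b → p i ≠ xv l := fun i hi h => hi (hinj (h.trans hb.symm))
        rcases hF a b with ⟨x, y, z, h1, h2, h3, h4, h5, h6⟩ | ⟨i, h1, h2, h3, h4⟩
        · exact noCCC hinj hR h1 h2 h3 (hCC x (ha' x h4.1) (hb' x h4.2))
            (hCC y (ha' y h5.1) (hb' y h5.2)) (hCC z (ha' z h6.1) (hb' z h6.2))
        · rcases C_attached (hP i) (hCC i (ha' i h1) (hb' i h2)) (hc' i) with h | h
          · rw [← ha, hR] at h; exact h3 h
          · rw [← hb, hR] at h; exact h4 h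
      · have hb' : ∀ i, p i ≠ xv l := fun i h => hb ⟨i, h⟩
        obtain ⟨x, y, z, h1, h2, h3, h4, h5, h6⟩ := hF1 a
        exact noCCC hinj hR h1 h2 h3 (hCC x (ha' x h4) (hb' x))
            (hCC y (ha' y h5) (hb' y)) (hCC z (ha' z h6) (hb' z))
    · have ha' : ∀ i, p i ≠ dv l := fun i h => ha ⟨i, h⟩
      by_cases hb : ∃ b, p b = xv l
      · obtain ⟨b, hb⟩ := hb
        have hb' : ∀ i, i ≠ b → p i ≠ xv l := fun i hi h => hi (hinj (h.trans hb.symm))
        obtain ⟨x, y, z, h1, h2, h3, h4, h5, h6⟩ := hF1 b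
        exact noCCC hinj hR h1 h2 h3 (hCC x (ha' x) (hb' x h4))
            (hCC y (ha' y) (hb' y h5)) (hCC z (ha' z) (hb' z h6))
      · have hb' : ∀ i, p i ≠ xv l := fun i h => hb ⟨i, h⟩
        obtain ⟨x, y, z, h1, h2, h3, h4, h5, h6⟩ := hF1 ⟨0, by omega⟩
        exact noCCC hinj hR h1 h2 h3 (hCC x (ha' x) (hb' x))
            (hCC y (ha' y) (hb' y)) (hCC z (ha' z) (hb' z))

theorem bW_false {s : ℕ} (h : bW s = false) : s < 15 := by
  unfold bW at h
  rw [decide_eq_false_iff_not] at h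
  omega

theorem factP3 : ∀ a : Fin 8, ∃ x y z : Fin 8, (rp x y && rp y z && !decide (x = z) &&
    !decide (x = a) && !decide (y = a) && !decide (z = a)) = true := by
  decide +kernel

theorem factC3 : ∀ a : Fin 7, ∃ x y z : Fin 7, (rc x y && rc y z && !decide (x = z) &&
    !decide (x = a) && !decide (y = a) && !decide (z = a)) = true := by
  decide +kernel

theorem no_P8 {φ : Fm} {p : Fin 8 → ℕ × ℕ} (hP : ∀ i, p i ∈ PP φ)
    (hinj : Function.Injective p)
    (hR : ∀ i j, AA φ (p i) (p j) = true ↔ rp i j = true) : False := by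
  have hs : ∀ i j : Fin 8, i.1 + 1 = j.1 → rp i j = true := by
    intro i j h
    unfold rp
    simp [h]
  by_cases hw : ∃ i, bW (p i).1 = true
  · by_cases hu : ∃ j, bU (p j).1 = true
    · obtain ⟨i, hi⟩ := hw
      obtain ⟨j, hj⟩ := hu
      have hij : rp i j = true := (hR i j).1 (AA_WU hi hj)
      rcases factP1 i j hij with ⟨x, y, z, h⟩ | h
      · simp only [Bool.and_eq_true, Bool.not_eq_true', ← Bool.not_eq_true] at h
        obtain ⟨⟨⟨⟨⟨⟨⟨⟨h1, h2⟩, h3⟩, h4⟩, h5⟩, h6⟩, h7⟩, h8⟩, h9⟩ := h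
        exact noCCC hinj hR h1 h2 (fun e => h3 (decide_eq_true e)) (far_CC hR hi hj h4 h5) (far_CC hR hi hj h6 h7)
          (far_CC hR hi hj h8 h9)
      · have hW : ∀ a b : Fin 8, bW (p a).1 = true → bU (p b).1 = true → rp a b = true :=
          fun a b h1 h2 => (hR a b).1 (AA_WU h1 h2)
        simp only [Bool.or_eq_true, Bool.and_eq_true, decide_eq_true_eq] at h
        rcases h with ⟨rfl, rfl⟩ | ⟨rfl, rfl⟩
        · -- `3` in `W` and `4` in `U`
          have c0 : CC (p 0) := far_CC hR hi hj (by decide) (by decide)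
          have c1 : CC (p 1) := far_CC hR hi hj (by decide) (by decide)
          have c6 : CC (p 6) := far_CC hR hi hj (by decide) (by decide)
          have c7 : CC (p 7) := far_CC hR hi hj (by decide) (by decide)
          have u2 : bU (p 2).1 = true := by
            by_contra h
            refine noCCC hinj hR (x := 0) (y := 1) (z := 2) (by decide) (by decide) (by decide)
              c0 c1 ⟨?_, by rwa [Bool.not_eq_true] at h⟩
            rw [Bool.eq_false_iff]
            intro h2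
            exact absurd (hW 2 4 h2 hj) (by decide)
          have w5 : bW (p 5).1 = true := by
            by_contra h
            refine noCCC hinj hR (x := 5) (y := 6) (z := 7) (by decide) (by decide) (by decide)
              ⟨by rwa [Bool.not_eq_true] at h, ?_⟩ c6 c7
            rw [Bool.eq_false_iff]
            intro h2
            exact absurd (hW 3 5 hi h2) (by decide)
          exact absurd (hW 5 2 w5 u2) (by decide)
        · -- `4` in `W` and `3` in `U`
          have c0 : CC (p 0) := far_CC hR hi hj (by decide) (by decide)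
          have c1 : CC (p 1) := far_CC hR hi hj (by decide) (by decide)
          have c6 : CC (p 6) := far_CC hR hi hj (by decide) (by decide)
          have c7 : CC (p 7) := far_CC hR hi hj (by decide) (by decide)
          have w2 : bW (p 2).1 = true := by
            by_contra h
            refine noCCC hinj hR (x := 0) (y := 1) (z := 2) (by decide) (by decide) (by decide)
              c0 c1 ⟨by rwa [Bool.not_eq_true] at h, ?_⟩
            rw [Bool.eq_false_iff]
            intro h2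
            exact absurd (hW 4 2 hi h2) (by decide)
          have u5 : bU (p 5).1 = true := by
            by_contra h
            refine noCCC hinj hR (x := 5) (y := 6) (z := 7) (by decide) (by decide) (by decide)
              ⟨?_, by rwa [Bool.not_eq_true] at h⟩ c6 c7
            rw [Bool.eq_false_iff]
            intro h2
            exact absurd (hW 5 3 h2 hj) (by decide)
          exact absurd (hW 2 5 w2 u5) (by decide)
    · refine case_W (by omega) hP hinj hR hs (fun i => ?_) ?_ ?_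
      · rw [Bool.eq_false_iff]
        exact fun h => hu ⟨i, h⟩
      · intro a
        obtain ⟨x, y, z, h⟩ := factP3 a
        simp only [Bool.and_eq_true, Bool.not_eq_true', decide_eq_false_iff_not] at h
        exact ⟨x, y, z, h.1.1.1.1.1, h.1.1.1.1.2, h.1.1.1.2, h.1.1.2, h.1.2, h.2⟩
      · intro a b
        rcases factP2 a b with ⟨x, y, z, h⟩ | h
        · simp only [Bool.and_eq_true, Bool.not_eq_true', decide_eq_false_iff_not] at h
          obtain ⟨⟨⟨⟨⟨⟨⟨⟨h1, h2⟩, h3⟩, h4⟩, h5⟩, h6⟩, h7⟩, h8⟩, h9⟩ := h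
          exact Or.inl ⟨x, y, z, h1, h2, h3, ⟨h4, h5⟩, ⟨h6, h7⟩, ⟨h8, h9⟩⟩
        · simp only [Bool.and_eq_true, Bool.not_eq_true', ← Bool.not_eq_true] at h
          exact Or.inr ⟨0, fun e => h.1.1.1 (decide_eq_true e),
            fun e => h.1.1.2 (decide_eq_true e), h.1.2, h.2⟩
  · have hW : ∀ i, bW (p i).1 = false := fun i => by
      rw [Bool.eq_false_iff]
      exact fun h => hw ⟨i, h⟩
    have hc : ∀ i j, (p i).2 = (p j).2 :=
      conn (fun q => q.2) hR hs (fun i j h => ((UC_adj (hW i) (hW j)).1 h).1)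
    refine no_path8 (fun i => if h : i < 8 then (p ⟨i, h⟩).1 else 0) ?_ ?_
    · intro i hi
      simp only [dif_pos hi]
      exact bW_false (hW _)
    · intro i hi j hj
      simp only [dif_pos hi, dif_pos hj]
      rw [← fl_eq _ (bW_false (hW _)) _ (bW_false (hW _))]
      have h1 := hR ⟨i, hi⟩ ⟨j, hj⟩
      rw [UC_adj (hW _) (hW _)] at h1
      unfold rp at h1
      simp only [Bool.or_eq_true, decide_eq_true_eq] at h1
      rw [← h1]
      exact ⟨fun h => ⟨hc _ _, h⟩, fun h => h.2⟩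

theorem no_C7 {φ : Fm} {p : Fin 7 → ℕ × ℕ} (hP : ∀ i, p i ∈ PP φ)
    (hinj : Function.Injective p)
    (hR : ∀ i j, AA φ (p i) (p j) = true ↔ rc i j = true) : False := by
  have hs : ∀ i j : Fin 7, i.1 + 1 = j.1 → rc i j = true := by
    intro i j h
    unfold rc
    simp [h]
  by_cases hw : ∃ i, bW (p i).1 = true
  · by_cases hu : ∃ j, bU (p j).1 = true
    · obtain ⟨i, hi⟩ := hw
      obtain ⟨j, hj⟩ := hu
      have hij : rc i j = true := (hR i j).1 (AA_WU hi hj)
      obtain ⟨x, y, z, h⟩ := factC1 i j hij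
      simp only [Bool.and_eq_true, Bool.not_eq_true', ← Bool.not_eq_true] at h
      obtain ⟨⟨⟨⟨⟨⟨⟨⟨h1, h2⟩, h3⟩, h4⟩, h5⟩, h6⟩, h7⟩, h8⟩, h9⟩ := h
      exact noCCC hinj hR h1 h2 (fun e => h3 (decide_eq_true e)) (far_CC hR hi hj h4 h5) (far_CC hR hi hj h6 h7)
        (far_CC hR hi hj h8 h9)
    · refine case_W (by omega) hP hinj hR hs (fun i => ?_) ?_ ?_
      · rw [Bool.eq_false_iff]
        exact fun h => hu ⟨i, h⟩
      · intro a
        obtain ⟨x, y, z, h⟩ := factC3 a
        simp only [Bool.and_eq_true, Bool.not_eq_true', decide_eq_false_iff_not] at h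
        exact ⟨x, y, z, h.1.1.1.1.1, h.1.1.1.1.2, h.1.1.1.2, h.1.1.2, h.1.2, h.2⟩
      · intro a b
        obtain ⟨x, y, z, h⟩ := factC2 a b
        simp only [Bool.and_eq_true, Bool.not_eq_true', decide_eq_false_iff_not] at h
        obtain ⟨⟨⟨⟨⟨⟨⟨⟨h1, h2⟩, h3⟩, h4⟩, h5⟩, h6⟩, h7⟩, h8⟩, h9⟩ := h
        exact Or.inl ⟨x, y, z, h1, h2, h3, ⟨h4, h5⟩, ⟨h6, h7⟩, ⟨h8, h9⟩⟩
  · have hW : ∀ i, bW (p i).1 = false := fun i => by
      rw [Bool.eq_false_iff]
      exact fun h => hw ⟨i, h⟩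
    have hc : ∀ i j, (p i).2 = (p j).2 :=
      conn (fun q => q.2) hR hs (fun i j h => ((UC_adj (hW i) (hW j)).1 h).1)
    refine no_cycle7 (fun i => if h : i < 7 then (p ⟨i, h⟩).1 else 0) ?_ ?_
    · intro i hi
      simp only [dif_pos hi]
      exact bW_false (hW _)
    · intro i hi j hj
      simp only [dif_pos hi, dif_pos hj]
      rw [← fl_eq _ (bW_false (hW _)) _ (bW_false (hW _))]
      have h1 := hR ⟨i, hi⟩ ⟨j, hj⟩
      rw [UC_adj (hW _) (hW _)] at h1
      unfold rc at h1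
      simp only [Bool.or_eq_true, Bool.and_eq_true, decide_eq_true_eq, or_assoc] at h1
      rw [← h1]
      exact ⟨fun h => ⟨hc _ _, h⟩, fun h => h.2⟩

end Pool.Agent.Q231.P8
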