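import Pool.Agent.Q231.P8.Defs
import Pool.Agent.Q231.GrTest

/-!
# Graphs given by structured vertices and a test for adjacency
-/

set_option autoImplicit false

namespace Pool.Agent.Q231.P8

open Pool.Agent.NPC Pool.Agent.NPC.H634R2

/-- the number of a structured vertex -/
def cod (p : ℕ × ℕ) : ℕ := 32 * p.2 + p.1

theorem cod_inj {p q : ℕ × ℕ} (hp : p.1 < 32) (hq : q.1 < 32) (h : cod p = cod q) : p = q := by
  unfold cod at h
  ext <;> omega

/-- the list of vertices -/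
def gV (P : List (ℕ × ℕ)) : List ℕ := P.map cod

/-- the list of edges -/
def gE (P : List (ℕ × ℕ)) (A : (ℕ × ℕ) → (ℕ × ℕ) → Bool) : List (ℕ × ℕ) :=
  ((P ×ˢ P).filter (fun e => decide (cod e.1 < cod e.2) && A e.1 e.2)).map
    (fun e => (cod e.1, cod e.2))

variable {P : List (ℕ × ℕ)} {A : (ℕ × ℕ) → (ℕ × ℕ) → Bool}

/-- assumptions on the structured graph -/
structure Ok (P : List (ℕ × ℕ)) (A : (ℕ × ℕ) → (ℕ × ℕ) → Bool) : Prop where
  lt : ∀ p ∈ P, p.1 < 32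
  nodup : P.Nodup
  symm : ∀ p q, A p q = A q p
  irr : ∀ p, A p p = false

theorem mem_gE (h : Ok P A) {p q : ℕ × ℕ} (hp : p ∈ P) (hq : q ∈ P) :
    (cod p, cod q) ∈ gE P A ↔ cod p < cod q ∧ A p q = true := by
  unfold gE
  simp only [List.mem_map, List.mem_filter, Bool.and_eq_true, decide_eq_true_eq, Prod.exists,
    List.mem_product, Prod.mk.injEq]
  constructor
  · rintro ⟨a, b, c, d, ⟨⟨h1, h2⟩, h3, h4⟩, h5, h6⟩
    have e1 := cod_inj (h.lt _ h1) (h.lt _ hp) h5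
    have e2 := cod_inj (h.lt _ h2) (h.lt _ hq) h6
    rw [e1, e2] at h4 h3
    exact ⟨h3, h4⟩
  · rintro ⟨h1, h2⟩
    exact ⟨p.1, p.2, q.1, q.2, ⟨⟨hp, hq⟩, h1, h2⟩, rfl, rfl⟩

theorem isGraph (h : Ok P A) : IsGraph (gV P) (gE P A) := by
  refine ⟨?_, ?_, ?_⟩
  · unfold gV
    refine List.Nodup.map_on ?_ h.nodup
    intro x hx y hy hxy
    exact cod_inj (h.lt _ hx) (h.lt _ hy) hxy
  · intro e he
    unfold gE at he
    simp only [List.mem_map, List.mem_filter, Bool.and_eq_true, decide_eq_true_eq] at he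
    obtain ⟨⟨a, b⟩, ⟨h12, h3, h4⟩, rfl⟩ := he
    obtain ⟨h1, h2⟩ := List.mem_product.1 h12
    exact ⟨List.mem_map_of_mem h1, List.mem_map_of_mem h2, Nat.ne_of_lt h3⟩
  · have hn : (gE P A).Nodup := by
      unfold gE
      refine List.Nodup.map_on ?_ ((List.Nodup.product h.nodup h.nodup).filter _)
      rintro ⟨a, b⟩ hx ⟨c, d⟩ hy hxy
      rw [List.mem_filter, List.mem_product] at hx hy
      simp only [Prod.mk.injEq] at hxy ⊢
      exact ⟨cod_inj (h.lt _ hx.1.1) (h.lt _ hy.1.1) hxy.1,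
        cod_inj (h.lt _ hx.1.2) (h.lt _ hy.1.2) hxy.2⟩
    refine List.Nodup.map_on ?_ hn
    have hlt : ∀ e ∈ gE P A, e.1 < e.2 := by
      intro e he
      unfold gE at he
      simp only [List.mem_map, List.mem_filter, Bool.and_eq_true, decide_eq_true_eq] at he
      obtain ⟨f, ⟨_, h3, _⟩, rfl⟩ := he
      exact h3
    rintro ⟨a, b⟩ hx ⟨c, d⟩ hy hxy
    have h1 := hlt _ hx
    have h2 := hlt _ hy
    rw [Sym2.eq_iff] at hxy
    simp only at h1 h2 hxy
    rcases hxy with ⟨rfl, rfl⟩ | ⟨rfl, rfl⟩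
    · rfl
    · omega

/-- the vertex of the graph with given structured vertex -/
def vert (p : {p : ℕ × ℕ // p ∈ P}) : {v : ℕ // v ∈ gV P} := ⟨cod p.1, List.mem_map_of_mem p.2⟩

theorem vert_surj (v : {v : ℕ // v ∈ gV P}) : ∃ p : {p : ℕ × ℕ // p ∈ P}, vert p = v := by
  obtain ⟨v, hv⟩ := v
  obtain ⟨p, hp, rfl⟩ := List.mem_map.1 hv
  exact ⟨⟨p, hp⟩, rfl⟩

theorem adj_vert (h : Ok P A) (p q : {p : ℕ × ℕ // p ∈ P}) :
    (toG (gV P) (gE P A)).Adj (vert p) (vert q) ↔ A p.1 q.1 = true := by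
  unfold toG vert
  simp only [ne_eq]
  rw [mem_gE h p.2 q.2, mem_gE h q.2 p.2, h.symm q.1 p.1]
  constructor
  · rintro ⟨_, h1 | h1⟩
    · exact h1.2
    · exact h1.2
  · intro h1
    have hne : cod p.1 ≠ cod q.1 := by
      intro h2
      rw [cod_inj (h.lt _ p.2) (h.lt _ q.2) h2, h.irr] at h1
      exact absurd h1 (by simp)
    refine ⟨fun h3 => hne (congrArg Subtype.val h3), ?_⟩
    rcases Nat.lt_or_gt_of_ne hne with h2 | h2
    · exact Or.inl ⟨h2, h1⟩
    · exact Or.inr ⟨h2, h1⟩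

theorem colorable_iff (h : Ok P A) : (toG (gV P) (gE P A)).Colorable 4 ↔
    ∃ f : ℕ × ℕ → Fin 4, ∀ p ∈ P, ∀ q ∈ P, A p q = true → f p ≠ f q := by
  constructor
  · rintro ⟨c⟩
    classical
    refine ⟨fun p => if hp : p ∈ P then c (vert ⟨p, hp⟩) else 0, ?_⟩
    intro p hp q hq hA
    simp only [dif_pos hp, dif_pos hq]
    exact c.valid ((adj_vert h ⟨p, hp⟩ ⟨q, hq⟩).2 hA)
  · rintro ⟨f, hf⟩
    choose g hg using (vert_surj (P := P))
    refine ⟨SimpleGraph.Coloring.mk (fun v => f (g v).1) ?_⟩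
    intro v w hvw
    rw [← hg v, ← hg w, adj_vert h] at hvw
    exact hf _ (g v).2 _ (g w).2 hvw

theorem embed_exists (h : Ok P A) {k : ℕ} {H : SimpleGraph (Fin k)}
    (e : H ↪g toG (gV P) (gE P A)) : ∃ p : Fin k → ℕ × ℕ, (∀ i, p i ∈ P) ∧
      Function.Injective p ∧ ∀ i j, A (p i) (p j) = true ↔ H.Adj i j := by
  choose g hg using (vert_surj (P := P))
  refine ⟨fun i => (g (e i)).1, fun i => (g (e i)).2, ?_, ?_⟩
  · intro i j hij
    have h1 : g (e i) = g (e j) := Subtype.ext hij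
    have h2 : e i = e j := by rw [← hg (e i), ← hg (e j), h1]
    exact e.injective h2
  · intro i j
    rw [← adj_vert h, hg, hg]
    exact e.map_adj_iff

end Pool.Agent.Q231.P8
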