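import Mathlib

/-!
# The local gadgets contain no induced path on eight vertices and no induced cycle on seven
-/

set_option autoImplicit false

namespace Pool.Agent.Q231.P8

/-- the local edges, given by types of vertices -/
def LE : List (ℕ × ℕ) :=
  [(0, 1), (4, 1), (4, 2), (5, 1), (5, 3), (6, 1), (6, 3), (7, 0), (7, 2), (7, 3), (8, 0), (8, 3),
    (9, 0), (9, 3), (4, 5), (6, 7), (8, 9), (11, 12), (13, 10), (13, 11), (14, 10), (14, 12),
    (13, 15), (13, 16), (14, 17), (14, 18), (19, 20)]

/-- adjacency by local edges -/
def loc (s t : ℕ) : Bool := decide ((s, t) ∈ LE) || decide ((t, s) ∈ LE)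

/-- rows of the adjacency matrix of the types `0, ..., 14` -/
def rows : List ℕ := [898, 113, 144, 992, 38, 26, 138, 77, 521, 265, 24576, 12288, 18432, 3072, 5120]

def fl (s t : ℕ) : Bool := Nat.testBit (rows.getD s 0) t

theorem fl_eq : ∀ s < 15, ∀ t < 15, loc s t = fl s t := by decide

/-- can the path (listed from its last vertex) be extended by `k` vertices to an induced path -/
def extP : ℕ → List ℕ → Bool
  | 0, _ => true
  | _ + 1, [] => false
  | k + 1, a :: r => (List.range 15).any fun b =>
      fl a b && (r.all fun c => !fl c b) && extP k (b :: a :: r)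

/-- can the path from `z` (listed from its last vertex, without `z`) be extended by `k` vertices
to an induced cycle -/
def extC (z : ℕ) : ℕ → List ℕ → Bool
  | 0, _ => false
  | _ + 1, [] => false
  | 1, a :: r => (List.range 15).any fun b => fl a b && fl z b && (r.all fun c => !fl c b)
  | k + 2, a :: r => (List.range 15).any fun b =>
      fl a b && !fl z b && (r.all fun c => !fl c b) && extC z (k + 1) (b :: a :: r)

theorem checkP : ∀ a < 15, extP 7 [a] = false := by decide +kernel

theorem checkC : ∀ z < 15, ∀ a < 15, fl z a = true → extC z 5 [a] = false := by decide +kernel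

theorem no_path8 (s : ℕ → ℕ) (h1 : ∀ i < 8, s i < 15)
    (h2 : ∀ i < 8, ∀ j < 8, fl (s i) (s j) = true ↔ (i + 1 = j ∨ j + 1 = i)) : False := by
  have key : ∀ k m, m + k = 7 → extP k (s m :: (List.range m).reverse.map s) = true := by
    intro k
    induction k with
    | zero => intro m _; rfl
    | succ k ih =>
      intro m hm
      unfold extP
      rw [List.any_eq_true]
      refine ⟨s (m + 1), List.mem_range.2 (h1 _ (by omega)), ?_⟩
      rw [Bool.and_eq_true, Bool.and_eq_true]
      refine ⟨⟨(h2 m (by omega) (m + 1) (by omega)).2 (Or.inl rfl), ?_⟩, ?_⟩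
      · rw [List.all_eq_true]
        intro c hc
        rw [List.mem_map] at hc
        obtain ⟨i, hi, rfl⟩ := hc
        rw [List.mem_reverse, List.mem_range] at hi
        rw [Bool.not_eq_true', Bool.eq_false_iff]
        intro h
        have := (h2 i (by omega) (m + 1) (by omega)).1 h
        omega
      · have := ih (m + 1) (by omega)
        rwa [List.range_succ, List.reverse_append, List.map_append] at this
  have h3 := key 7 0 rfl
  have h4 := checkP (s 0) (h1 0 (by omega))
  simp only [List.range_zero, List.reverse_nil, List.map_nil] at h3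
  rw [h3] at h4
  exact absurd h4 (by decide)

theorem no_cycle7 (s : ℕ → ℕ) (h1 : ∀ i < 7, s i < 15)
    (h2 : ∀ i < 7, ∀ j < 7, fl (s i) (s j) = true ↔
      (i + 1 = j ∨ j + 1 = i ∨ (i = 0 ∧ j = 6) ∨ (i = 6 ∧ j = 0))) : False := by
  have key : ∀ k m, m + k = 4 →
      extC (s 0) (k + 1) (s (m + 1) :: (List.range m).reverse.map (fun i => s (i + 1))) =
        true := by
    intro k
    induction k with
    | zero =>
      intro m hm
      have hm' : m = 4 := by omega
      subst hm'
      unfold extC
      rw [List.any_eq_true]
      refine ⟨s 6, List.mem_range.2 (h1 _ (by omega)), ?_⟩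
      rw [Bool.and_eq_true, Bool.and_eq_true]
      refine ⟨⟨(h2 5 (by omega) 6 (by omega)).2 (by omega),
        (h2 0 (by omega) 6 (by omega)).2 (by omega)⟩, ?_⟩
      rw [List.all_eq_true]
      intro c hc
      rw [List.mem_map] at hc
      obtain ⟨i, hi, rfl⟩ := hc
      rw [List.mem_reverse, List.mem_range] at hi
      rw [Bool.not_eq_true', Bool.eq_false_iff]
      intro h
      have := (h2 (i + 1) (by omega) 6 (by omega)).1 h
      omega
    | succ k ih =>
      intro m hm
      unfold extC
      rw [List.any_eq_true]
      refine ⟨s (m + 2), List.mem_range.2 (h1 _ (by omega)), ?_⟩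
      rw [Bool.and_eq_true, Bool.and_eq_true, Bool.and_eq_true]
      refine ⟨⟨⟨(h2 (m + 1) (by omega) (m + 2) (by omega)).2 (by omega), ?_⟩, ?_⟩, ?_⟩
      · rw [Bool.not_eq_true', Bool.eq_false_iff]
        intro h
        have := (h2 0 (by omega) (m + 2) (by omega)).1 h
        omega
      · rw [List.all_eq_true]
        intro c hc
        rw [List.mem_map] at hc
        obtain ⟨i, hi, rfl⟩ := hc
        rw [List.mem_reverse, List.mem_range] at hi
        rw [Bool.not_eq_true', Bool.eq_false_iff]
        intro h
        have := (h2 (i + 1) (by omega) (m + 2) (by omega)).1 h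
        omega
      · have := ih (m + 1) (by omega)
        rwa [List.range_succ, List.reverse_append, List.map_append] at this
  have h3 := key 4 0 rfl
  have h4 := checkC (s 0) (h1 0 (by omega)) (s 1) (h1 1 (by omega))
    ((h2 0 (by omega) 1 (by omega)).2 (Or.inl rfl))
  simp only [List.range_zero, List.reverse_nil, List.map_nil] at h3
  rw [h3] at h4
  exact absurd h4 (by decide)

end Pool.Agent.Q231.P8
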