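import Pool.Agent.Q231.P8.Free
import Pool.Agent.Q231.P8.Col
import Pool.Agent.Q231.GrTest

/-!
# Polynomial time, and membership in NP
-/

set_option autoImplicit false

namespace Pool.Agent.Q231.P8

open Pool.Agent.NPC Pool.Agent.NPC.H634R2 Pool.Agent.Q231.Gr

/-! ### The reduction -/

/-- the reduction -/
def red (φ : Fm) : List ℕ × List (ℕ × ℕ) := (gV (PP φ), gE (PP φ) (AA φ))

attribute [local fun_prop] poly_dedup

theorem vars_poly : Poly vars := by
  unfold vars
  fun_prop

theorem PP_poly : Poly PP := by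
  have := vars_poly
  unfold PP
  fun_prop

theorem crossL_poly : Poly crossL := by
  unfold crossL dv xv
  fun_prop

theorem AA_poly {α : Type} [TEnc α] {φ : α → Fm} {p q : α → ℕ × ℕ} (hφ : Poly φ) (hp : Poly p)
    (hq : Poly q) : Poly (fun a => AA (φ a) (p a) (q a)) := by
  have := crossL_poly
  unfold AA bW bU loc
  fun_prop

attribute [local fun_prop] AA_poly PP_poly

theorem red_poly : Poly red := by
  unfold red gV gE cod
  fun_prop

theorem pcfree_red (φ : Fm) : PCFree 8 7 (red φ) := by
  refine ⟨isGraph (ok φ), ⟨fun e => ?_⟩, ⟨fun e => ?_⟩⟩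
  · obtain ⟨p, h1, h2, h3⟩ := embed_exists (ok φ) e
    refine no_P8 h1 h2 (fun i j => ?_)
    rw [h3, SimpleGraph.pathGraph_adj]
    unfold rp
    simp only [Bool.or_eq_true, decide_eq_true_eq]
  · obtain ⟨p, h1, h2, h3⟩ := embed_exists (ok φ) e
    refine no_C7 h1 h2 (fun i j => ?_)
    rw [h3]
    revert i j
    decide

/-- **Hardness**; all graphs produced contain no induced `P_8` and no induced `C_7`. -/
theorem hardPr : HardPr (PCFree 8 7) (fun x : List ℕ × List (ℕ × ℕ) =>
    (toG x.1 x.2).Colorable 4) := by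
  refine hardPr_SAT3b.trans red_poly ?_ ?_
  · intro φ _
    exact pcfree_red φ
  · intro φ hφ
    exact colorable_red hφ.2.2

theorem hardI : HardI (FourCol 8 7) := by
  intro L hL
  obtain ⟨f, hf, hpr, hfL⟩ := hardPr L hL
  exact ⟨f, hf, fun x => (hfL x).trans ⟨fun h => ⟨hpr x, h⟩, fun h => h.2⟩⟩

/-! ### Testing for a fixed induced subgraph -/

/-- all lists of `k` members of a list -/
def tup : ℕ → List ℕ → List (List ℕ)
  | 0, _ => [[]]
  | k + 1, V => V.flatMap fun a => (tup k V).map fun l => a :: l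

theorem tup_poly (k : ℕ) : Poly (tup k) := by
  induction k with
  | zero => exact NPC.Poly.const ([[]] : List (List ℕ))
  | succ k ih =>
    change Poly (fun V : List ℕ => V.flatMap fun a => (tup k V).map fun l => a :: l)
    fun_prop

theorem mem_tup {k : ℕ} {V l : List ℕ} : l ∈ tup k V ↔ l.length = k ∧ ∀ a ∈ l, a ∈ V := by
  induction k generalizing l with
  | zero =>
    unfold tup
    rw [List.mem_singleton]
    constructor
    · rintro rfl
      simp
    · rintro ⟨h, _⟩
      exact List.length_eq_zero_iff.1 h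
  | succ k ih =>
    unfold tup
    rw [List.mem_flatMap]
    simp only [List.mem_map]
    constructor
    · rintro ⟨a, ha, l', hl', rfl⟩
      rw [ih] at hl'
      refine ⟨by simp [hl'.1], ?_⟩
      intro b hb
      rw [List.mem_cons] at hb
      rcases hb with rfl | hb
      · exact ha
      · exact hl'.2 b hb
    · rintro ⟨h1, h2⟩
      cases l with
      | nil => simp at h1
      | cons a l' =>
        exact ⟨a, h2 a List.mem_cons_self, l', ih.2 ⟨by simpa using h1,
          fun b hb => h2 b (List.mem_cons_of_mem _ hb)⟩, rfl⟩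

/-- adjacency in a graph given by lists -/
def adB (E : List (ℕ × ℕ)) (a b : ℕ) : Bool :=
  !decide (a = b) && (decide ((a, b) ∈ E) || decide ((b, a) ∈ E))

open Classical in
/-- the pairs of adjacent vertices -/
noncomputable def LH {k : ℕ} (H : SimpleGraph (Fin k)) : List (ℕ × ℕ) :=
  ((List.finRange k ×ˢ List.finRange k).filter (fun p => decide (H.Adj p.1 p.2))).map
    (fun p => (p.1.1, p.2.1))

theorem mem_LH {k : ℕ} (H : SimpleGraph (Fin k)) (i j : Fin k) :
    (i.1, j.1) ∈ LH H ↔ H.Adj i j := by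
  classical
  unfold LH
  simp only [List.mem_map, List.mem_filter, decide_eq_true_eq, Prod.exists, List.mem_product,
    List.mem_finRange, true_and, Prod.mk.injEq]
  constructor
  · rintro ⟨a, b, h, h1, h2⟩
    rwa [Fin.ext h1, Fin.ext h2] at h
  · intro h
    exact ⟨i, j, h, rfl, rfl⟩

/-- the test for an induced subgraph -/
noncomputable def embB {k : ℕ} (H : SimpleGraph (Fin k)) (V : List ℕ) (E : List (ℕ × ℕ)) : Bool :=
  (tup k V).any fun l => (List.range k).all fun i => (List.range k).all fun j =>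
    decide (adB E (l.getD i 0) (l.getD j 0) = decide ((i, j) ∈ LH H)) &&
      (decide (i = j) || !decide (l.getD i 0 = l.getD j 0))

theorem embB_poly {k : ℕ} (H : SimpleGraph (Fin k)) {α : Type} [TEnc α] {V : α → List ℕ}
    {E : α → List (ℕ × ℕ)} (hV : Poly V) (hE : Poly E) : Poly (fun a => embB H (V a) (E a)) := by
  have := tup_poly k
  unfold embB adB
  fun_prop

theorem embB_iff {k : ℕ} (H : SimpleGraph (Fin k)) (V : List ℕ) (E : List (ℕ × ℕ)) :
    embB H V E = true ↔ Nonempty (H ↪g toG V E) := by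
  have hadB : ∀ a b : {v : ℕ // v ∈ V}, adB E a.1 b.1 = true ↔ (toG V E).Adj a b := by
    intro a b
    unfold adB toG
    simp only [Bool.and_eq_true, Bool.or_eq_true, Bool.not_eq_true', decide_eq_true_eq,
      decide_eq_false_iff_not, ne_eq, Subtype.ext_iff]
  unfold embB
  rw [List.any_eq_true]
  constructor
  · rintro ⟨l, hl, h⟩
    rw [mem_tup] at hl
    simp only [List.all_eq_true, List.mem_range, Bool.and_eq_true, decide_eq_true_eq,
      Bool.or_eq_true, Bool.not_eq_true', decide_eq_false_iff_not] at h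
    have hmem : ∀ i : Fin k, l.getD i.1 0 ∈ V := by
      intro i
      rw [List.getD_eq_getElem?_getD, List.getElem?_eq_getElem (by rw [hl.1]; exact i.2)]
      exact hl.2 _ (List.getElem_mem _)
    refine ⟨⟨⟨fun i => ⟨l.getD i.1 0, hmem i⟩, ?_⟩, ?_⟩⟩
    · intro i j hij
      have h1 := (h i.1 i.2 j.1 j.2).2
      have h2 : l.getD i.1 0 = l.getD j.1 0 := congrArg Subtype.val hij
      rcases h1 with h1 | h1
      · exact Fin.ext h1
      · exact absurd h2 h1
    · intro i j
      have h1 := (h i.1 i.2 j.1 j.2).1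
      change (toG V E).Adj ⟨l.getD i.1 0, hmem i⟩ ⟨l.getD j.1 0, hmem j⟩ ↔ H.Adj i j
      rw [← hadB, ← mem_LH H i j]
      simp only [h1, decide_eq_true_eq]
  · rintro ⟨e⟩
    refine ⟨List.ofFn (fun i => (e i).1), ?_, ?_⟩
    · rw [mem_tup]
      refine ⟨List.length_ofFn, ?_⟩
      intro a ha
      obtain ⟨i, rfl⟩ := (List.mem_ofFn' _ a).1 ha
      exact (e i).2
    · simp only [List.all_eq_true, List.mem_range, Bool.and_eq_true, decide_eq_true_eq,
        Bool.or_eq_true, Bool.not_eq_true', decide_eq_false_iff_not]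
      intro i hi j hj
      have hg : ∀ (m : ℕ) (hm : m < k), (List.ofFn (fun i => (e i).1)).getD m 0 =
          (e ⟨m, hm⟩).1 := by
        intro m hm
        rw [List.getD_eq_getElem?_getD, List.getElem?_eq_getElem (by
          rw [List.length_ofFn]; exact hm)]
        simp
      rw [hg i hi, hg j hj]
      refine ⟨?_, ?_⟩
      · rw [Bool.eq_iff_iff, hadB, e.map_adj_iff, decide_eq_true_iff,
          mem_LH H ⟨i, hi⟩ ⟨j, hj⟩]
      · by_cases hij : i = j
        · exact Or.inl hij
        · refine Or.inr (fun h => hij ?_)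
          have := e.injective (Subtype.ext h)
          exact congrArg Fin.val this

/-! ### Membership in NP -/

/-- the verifier -/
noncomputable def tst (s t : ℕ) (x : (List ℕ × List (ℕ × ℕ)) × List (ℕ × ℕ)) : Bool :=
  isGraphB x.1.1 x.1.2 && !embB (SimpleGraph.pathGraph s) x.1.1 x.1.2 &&
    !embB (SimpleGraph.cycleGraph t) x.1.1 x.1.2 &&
    (x.1.1.all fun v => x.2.any fun q => decide (q.1 = v) && decide (q.2 < 4)) &&
    (x.1.2.all fun e => x.2.all fun q => x.2.all fun q' =>
      !(decide (q.1 = e.1) && decide (q'.1 = e.2)) || !decide (q.2 = q'.2))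

attribute [local fun_prop] embB_poly isGraphB_poly

theorem tst_poly (s t : ℕ) : Poly (tst s t) := by
  unfold tst
  fun_prop

theorem tst_iff (s t : ℕ) (V : List ℕ) (E w : List (ℕ × ℕ)) : tst s t ((V, E), w) = true ↔
    PCFree s t (V, E) ∧ (∀ v ∈ V, ∃ q ∈ w, q.1 = v ∧ q.2 < 4) ∧
      ∀ e ∈ E, ∀ q ∈ w, ∀ q' ∈ w, q.1 = e.1 → q'.1 = e.2 → q.2 ≠ q'.2 := by
  unfold tst PCFree
  rw [← isGraphB_iff, ← not_nonempty_iff, ← not_nonempty_iff, ← embB_iff, ← embB_iff]
  simp only [Bool.and_eq_true, List.all_eq_true, List.any_eq_true, decide_eq_true_eq,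
    Bool.or_eq_true, Bool.not_eq_true', decide_eq_false_iff_not, Bool.and_eq_false_iff, and_assoc,
    Bool.not_eq_true]
  refine and_congr_right fun _ => and_congr_right fun _ => and_congr_right fun _ =>
    and_congr_right fun _ => ?_
  refine forall_congr' fun e => forall_congr' fun _ => forall_congr' fun q => forall_congr' fun _ =>
    forall_congr' fun q' => forall_congr' fun _ => ?_
  tauto

theorem len_le_sz {β : Type} [TEnc β] (l : List β) : l.length ≤ sz l := by
  induction l with
  | nil => simp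
  | cons a l ih => simp; omega

theorem inNP (s t : ℕ) : InNPP (FourCol s t) := by
  refine inNPP_of (R := tst s t) (tst_poly s t)
    (Polynomial.X * (Polynomial.X + 30) + 4) ?_
  rintro ⟨V, E⟩
  set n := sz ((V, E) : List ℕ × List (ℕ × ℕ)) with hn
  have hev : (Polynomial.X * (Polynomial.X + 30) + 4 : Polynomial ℕ).eval n =
      n * (n + 30) + 4 := by simp
  rw [hev]
  have hsV : sz V ≤ n := by rw [hn, sz_pair]; omega
  constructor
  · rintro ⟨h1, ⟨c⟩⟩
    classical
    let f : ℕ → ℕ := fun v => if h : v ∈ V then (c ⟨v, h⟩).1 else 0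
    have hf : ∀ v, f v < 4 := by
      intro v
      by_cases h : v ∈ V
      · simp only [f, dif_pos h]; exact (c ⟨v, h⟩).2
      · simp only [f, dif_neg h]; omega
    refine ⟨V.map (fun v => (v, f v)), ?_, ?_⟩
    · have h4 := sz_le_length_mul (V.map (fun v => (v, f v))) (n + 28) (by
        intro a ha
        obtain ⟨v, hv, rfl⟩ := List.mem_map.1 ha
        rw [sz_pair]
        have h5 : sz (f v) ≤ 2 * sz 4 := sz_nat_mono_le (hf v).le
        have h6 := sz_le_of_mem hv
        have h7 : sz (4 : ℕ) ≤ 13 := by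
          have h8 := sz_nat_le 4
          have h9 : Nat.size 4 = 3 := by decide
          omega
        omega)
      rw [List.length_map] at h4
      have h5 := len_le_sz V
      have h6 : V.length ≤ n := h5.trans hsV
      have h7 : V.length * (n + 28 + 1) ≤ n * (n + 28 + 1) := Nat.mul_le_mul_right _ h6
      nlinarith
    · rw [tst_iff]
      refine ⟨h1, ?_, ?_⟩
      · intro v hv
        exact ⟨(v, f v), List.mem_map_of_mem hv, rfl, hf v⟩
      · rintro ⟨a, b⟩ he q hq q' hq' e1 e2
        obtain ⟨v, hv, rfl⟩ := List.mem_map.1 hq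
        obtain ⟨v', hv', rfl⟩ := List.mem_map.1 hq'
        simp only at e1 e2 ⊢
        subst e1 e2
        have hne : v ≠ v' := (h1.1.2.1 _ he).2.2
        have hadj : (toG V E).Adj ⟨v, hv⟩ ⟨v', hv'⟩ :=
          ⟨fun h => hne (congrArg Subtype.val h), Or.inl he⟩
        have := c.valid hadj
        simp only [f, dif_pos hv, dif_pos hv']
        exact fun h => this (Fin.ext h)
  · rintro ⟨w, _, hw⟩
    rw [tst_iff] at hw
    obtain ⟨h1, h2, h3⟩ := hw
    refine ⟨h1, ?_⟩
    choose! q hq hq1 hq2 using h2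
    refine ⟨SimpleGraph.Coloring.mk (fun v => (⟨(q v.1).2, hq2 v.1 v.2⟩ : Fin 4)) ?_⟩
    rintro ⟨a, ha⟩ ⟨b, hb⟩ hab h
    have h4 : (q a).2 = (q b).2 := congrArg Fin.val h
    rcases hab.2 with h5 | h5
    · exact h3 _ h5 (q a) (hq a ha) (q b) (hq b hb) (hq1 a ha) (hq1 b hb) h4
    · exact h3 _ h5 (q b) (hq b hb) (q a) (hq a ha) (hq1 b hb) (hq1 a ha) h4.symm

end Pool.Agent.Q231.P8
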