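import Pool.Agent.Q231.P8.Gen
import Pool.Agent.Q231.P8.Local
import Pool.Agent.NPC.Sat2

/-!
# The reduction from 3SAT

A structured vertex is a pair (type, index), where the index is the number of a clause for the types
`0, ..., 9` and a variable for the types `10, ..., 20`.
-/

set_option autoImplicit false

namespace Pool.Agent.Q231.P8

open Pool.Agent.NPC Pool.Agent.NPC.H634R2

/-- the formulas -/
abbrev Fm : Type := List (Lit ℕ × Lit ℕ × Lit ℕ)

/-- the types `15, ..., 20` form one side `W` -/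
def bW (s : ℕ) : Bool := decide (15 ≤ s)

/-- the types `0, 1, 2, 3, 10, 11, 12` form the other side `U` -/
def bU (s : ℕ) : Bool := decide (s < 4) || (decide (10 ≤ s) && decide (s < 13))

/-- the first vertex of a literal -/
def dv (l : Lit ℕ) : ℕ × ℕ := (bif l.1 then 15 else 17, l.2)

/-- the second vertex of a literal -/
def xv (l : Lit ℕ) : ℕ × ℕ := (bif l.1 then 16 else 18, l.2)

/-- the edges between clause gadgets and literals -/
def crossL (φ : Fm) : List ((ℕ × ℕ) × (ℕ × ℕ)) :=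
  φ.zipIdx.flatMap fun c => [((4, c.2), dv c.1.1), ((5, c.2), xv c.1.1),
    ((6, c.2), dv c.1.2.1), ((7, c.2), xv c.1.2.1), ((8, c.2), dv c.1.2.2), ((9, c.2), xv c.1.2.2)]

/-- the variables -/
def vars (φ : Fm) : List ℕ := (φ.flatMap fun c => [c.1.2, c.2.1.2, c.2.2.2]).dedup

/-- the structured vertices -/
def PP (φ : Fm) : List (ℕ × ℕ) :=
  ((List.range 10) ×ˢ (φ.zipIdx.map fun c => c.2)) ++
    (((List.range 11).map fun s => s + 10) ×ˢ vars φ)

/-- adjacency -/
def AA (φ : Fm) (p q : ℕ × ℕ) : Bool :=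
  (bW p.1 && bU q.1) || (bU p.1 && bW q.1) || (decide (p.2 = q.2) && loc p.1 q.1) ||
    decide ((p, q) ∈ crossL φ) || decide ((q, p) ∈ crossL φ)

theorem mem_idx {φ : Fm} {i : ℕ} : i ∈ (φ.zipIdx.map fun c => c.2) ↔ i < φ.length := by
  rw [List.mem_map]
  constructor
  · rintro ⟨c, hc, rfl⟩
    rw [List.mem_zipIdx_iff_getElem?] at hc
    exact (List.getElem?_eq_some_iff.1 hc).1
  · intro h
    exact ⟨(φ[i], i), by rw [List.mem_zipIdx_iff_getElem?]; simp [h], rfl⟩

theorem nodup_idx (φ : Fm) : (φ.zipIdx.map fun c => c.2).Nodup := by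
  have : (φ.zipIdx.map fun c => c.2) = List.range φ.length := by
    apply List.ext_getElem
    · simp
    · intro i h1 h2
      simp
  rw [this]
  exact List.nodup_range

theorem mem_PP {φ : Fm} {p : ℕ × ℕ} : p ∈ PP φ ↔
    (p.1 < 10 ∧ p.2 < φ.length) ∨ (10 ≤ p.1 ∧ p.1 < 21 ∧ p.2 ∈ vars φ) := by
  obtain ⟨s, i⟩ := p
  unfold PP
  rw [List.mem_append, List.mem_product, List.mem_product, mem_idx, List.mem_range]
  simp only [List.mem_map, List.mem_range]
  constructor
  · rintro (h | ⟨⟨t, ht, rfl⟩, h⟩)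
    · exact Or.inl h
    · exact Or.inr ⟨by omega, by omega, h⟩
  · rintro (h | ⟨h1, h2, h3⟩)
    · exact Or.inl h
    · exact Or.inr ⟨⟨s - 10, by omega, by omega⟩, h3⟩

theorem nodup_PP (φ : Fm) : (PP φ).Nodup := by
  unfold PP
  refine List.Nodup.append (List.Nodup.product List.nodup_range (nodup_idx φ))
    (List.Nodup.product ?_ (List.nodup_dedup _)) ?_
  · refine List.Nodup.map_on ?_ List.nodup_range
    intro x _ y _ h
    omega
  · rintro ⟨s, i⟩ h1 h2
    rw [List.mem_product] at h1 h2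
    simp only [List.mem_map, List.mem_range] at h1 h2
    obtain ⟨⟨t, _, h3⟩, _⟩ := h2
    omega

theorem loc_symm (s t : ℕ) : loc s t = loc t s := by
  unfold loc
  rw [Bool.or_comm]

theorem loc_irr (s : ℕ) : loc s s = false := by
  unfold loc LE
  simp only [List.mem_cons, Prod.mk.injEq, List.not_mem_nil, or_false, Bool.or_self,
    decide_eq_false_iff_not]
  omega

theorem mem_crossL {φ : Fm} {p q : ℕ × ℕ} : (p, q) ∈ crossL φ ↔
    ∃ c : Lit ℕ × Lit ℕ × Lit ℕ, φ[p.2]? = some c ∧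
      ((p.1 = 4 ∧ q = dv c.1) ∨ (p.1 = 5 ∧ q = xv c.1) ∨ (p.1 = 6 ∧ q = dv c.2.1) ∨
        (p.1 = 7 ∧ q = xv c.2.1) ∨ (p.1 = 8 ∧ q = dv c.2.2) ∨ (p.1 = 9 ∧ q = xv c.2.2)) := by
  obtain ⟨s, i⟩ := p
  unfold crossL
  rw [List.mem_flatMap]
  simp only [List.mem_cons, Prod.mk.injEq, List.not_mem_nil, or_false, Prod.exists]
  constructor
  · rintro ⟨a, b, c, d, e, f, g, h1, h2⟩
    rw [List.mem_zipIdx_iff_getElem?] at h1
    refine ⟨a, b, c, d, e, f, ?_, ?_⟩
    · rcases h2 with h2 | h2 | h2 | h2 | h2 | h2 <;> (rw [h2.1.2]; exact h1)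
    · rcases h2 with h2 | h2 | h2 | h2 | h2 | h2 <;> simp [h2.1.1, h2.2]
  · rintro ⟨a, b, c, d, e, f, h1, h2⟩
    refine ⟨a, b, c, d, e, f, i, ?_, ?_⟩
    · rw [List.mem_zipIdx_iff_getElem?]; exact h1
    · rcases h2 with h2 | h2 | h2 | h2 | h2 | h2 <;> simp [h2.1, h2.2]

theorem ok (φ : Fm) : Ok (PP φ) (AA φ) := by
  refine ⟨?_, nodup_PP φ, ?_, ?_⟩
  · intro p hp
    rw [mem_PP] at hp
    omega
  · intro p q
    unfold AA
    rw [loc_symm p.1 q.1, show decide (p.2 = q.2) = decide (q.2 = p.2) by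
      rw [decide_eq_decide]; exact eq_comm]
    generalize bW p.1 = a
    generalize bU p.1 = b
    generalize bW q.1 = c
    generalize bU q.1 = d
    generalize (decide (q.2 = p.2) && loc q.1 p.1) = e
    generalize decide ((p, q) ∈ crossL φ) = f
    generalize decide ((q, p) ∈ crossL φ) = g
    revert a b c d e f g
    decide
  · intro p
    have h1 : (bW p.1 && bU p.1) = false := by
      unfold bW bU
      rw [Bool.eq_false_iff]
      simp only [ne_eq, Bool.and_eq_true, Bool.or_eq_true, decide_eq_true_eq]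
      omega
    have h2 : (bU p.1 && bW p.1) = false := by rw [Bool.and_comm]; exact h1
    have h3 : decide ((p, p) ∈ crossL φ) = false := by
      rw [decide_eq_false_iff_not, mem_crossL]
      rintro ⟨c, _, h⟩
      rcases h with h | h | h | h | h | h
      all_goals
        have h4 := congrArg Prod.fst h.2
        rw [h.1] at h4
        simp only [dv, xv] at h4
        revert h4
        cases (c.1.1) <;> cases (c.2.1.1) <;> cases (c.2.2.1) <;> simp
    unfold AA
    rw [h1, h2, h3, loc_irr]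
    simp

/-! ### From a colouring to a satisfying assignment -/

theorem AA_cross {φ : Fm} {p q : ℕ × ℕ} (h : (p, q) ∈ crossL φ) : AA φ p q = true := by
  unfold AA
  simp [h]

theorem AA_loc {φ : Fm} {s t i : ℕ} (h : loc s t = true) : AA φ (s, i) (t, i) = true := by
  unfold AA
  simp [h]

theorem AA_WU {φ : Fm} {p q : ℕ × ℕ} (h1 : bW p.1 = true) (h2 : bU q.1 = true) :
    AA φ p q = true := by
  unfold AA
  simp [h1, h2]

theorem vars_mem {φ : Fm} {i : ℕ} {c : Lit ℕ × Lit ℕ × Lit ℕ} (h : φ[i]? = some c) :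
    i < φ.length ∧ c.1.2 ∈ vars φ ∧ c.2.1.2 ∈ vars φ ∧ c.2.2.2 ∈ vars φ := by
  have h1 := List.getElem?_eq_some_iff.1 h
  obtain ⟨h2, h3⟩ := h1
  have h4 : c ∈ φ := by rw [← h3]; exact List.getElem_mem h2
  unfold vars
  refine ⟨h2, ?_, ?_, ?_⟩ <;> rw [List.mem_dedup, List.mem_flatMap] <;>
    exact ⟨c, h4, by simp⟩

theorem mem_dv {φ : Fm} {l : Lit ℕ} (h : l.2 ∈ vars φ) : dv l ∈ PP φ ∧ xv l ∈ PP φ ∧
    bW (dv l).1 = true ∧ bW (xv l).1 = true := by
  obtain ⟨b, v⟩ := l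
  rw [mem_PP, mem_PP]
  unfold dv xv bW
  cases b <;> simp [h]

theorem two_side {a b c x y : Fin 4} (ha : a = x ∨ a = y) (hb : b = x ∨ b = y)
    (hc : c = x ∨ c = y) (h1 : a ≠ b) (h2 : a ≠ c) : b = c := by
  rcases ha with rfl | rfl <;> rcases hb with rfl | rfl <;> rcases hc with rfl | rfl <;>
    first | rfl | exact absurd rfl h1 | exact absurd rfl h2

theorem sides : ∀ a b c d e : Fin 4, a ≠ b → c ≠ d → a ≠ c → a ≠ d → b ≠ c → b ≠ d →
    ((e = a ∨ e = b) ∨ (e = c ∨ e = d)) ∧ (e ≠ c → e ≠ d → e = a ∨ e = b) ∧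
      (e ≠ a → e ≠ b → e = c ∨ e = d) := by decide

theorem sound {φ : Fm} (hφ : φ ≠ []) (f : ℕ × ℕ → Fin 4)
    (hf : ∀ p ∈ PP φ, ∀ q ∈ PP φ, AA φ p q = true → f p ≠ f q) : SAT3 φ := by
  obtain ⟨c0, hc0⟩ : ∃ c, φ[0]? = some c := by
    cases φ with
    | nil => exact absurd rfl hφ
    | cons c φ => exact ⟨c, rfl⟩
  obtain ⟨hm, hv0, _, _⟩ := vars_mem hc0
  set v0 := c0.1.2
  have m0 : ((0, 0) : ℕ × ℕ) ∈ PP φ := mem_PP.2 (Or.inl ⟨by simp, hm⟩)
  have m1 : ((1, 0) : ℕ × ℕ) ∈ PP φ := mem_PP.2 (Or.inl ⟨by simp, hm⟩)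
  have m19 : ((19, v0) : ℕ × ℕ) ∈ PP φ := mem_PP.2 (Or.inr ⟨by simp, by simp, hv0⟩)
  have m20 : ((20, v0) : ℕ × ℕ) ∈ PP φ := mem_PP.2 (Or.inr ⟨by simp, by simp, hv0⟩)
  obtain ⟨α, hα⟩ : ∃ α, α = f (19, v0) := ⟨_, rfl⟩
  obtain ⟨β, hβ⟩ : ∃ β, β = f (20, v0) := ⟨_, rfl⟩
  obtain ⟨γ, hγ⟩ : ∃ γ, γ = f (0, 0) := ⟨_, rfl⟩
  obtain ⟨δ, hδ⟩ : ∃ δ, δ = f (1, 0) := ⟨_, rfl⟩
  have hS := fun e => sides α β γ δ e
    (by rw [hα, hβ]; exact hf _ m19 _ m20 (AA_loc (by decide)))
    (by rw [hγ, hδ]; exact hf _ m0 _ m1 (AA_loc (by decide)))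
    (by rw [hα, hγ]; exact hf _ m19 _ m0 (AA_WU rfl rfl))
    (by rw [hα, hδ]; exact hf _ m19 _ m1 (AA_WU rfl rfl))
    (by rw [hβ, hγ]; exact hf _ m20 _ m0 (AA_WU rfl rfl))
    (by rw [hβ, hδ]; exact hf _ m20 _ m1 (AA_WU rfl rfl))
  have hW : ∀ p ∈ PP φ, bW p.1 = true → f p = α ∨ f p = β := by
    intro p hp hb
    refine (hS (f p)).2.1 ?_ ?_
    · rw [hγ]; exact hf _ hp _ m0 (AA_WU hb rfl)
    · rw [hδ]; exact hf _ hp _ m1 (AA_WU hb rfl)
  have hU : ∀ p ∈ PP φ, bU p.1 = true → f p = γ ∨ f p = δ := by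
    intro p hp hb
    refine (hS (f p)).2.2 ?_ ?_
    · rw [hα]; exact (hf _ m19 _ hp (AA_WU rfl hb)).symm
    · rw [hβ]; exact (hf _ m20 _ hp (AA_WU rfl hb)).symm
  -- the literals of a variable are not both true
  have hnot : ∀ v ∈ vars φ, f (15, v) ≠ f (16, v) → f (17, v) ≠ f (18, v) → False := by
    intro v hv h1 h2
    have mm : ∀ s, 10 ≤ s → s < 21 → ((s, v) : ℕ × ℕ) ∈ PP φ :=
      fun s h3 h4 => mem_PP.2 (Or.inr ⟨h3, h4, hv⟩)
    have e13 : f (13, v) = γ ∨ f (13, v) = δ := by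
      rcases (hS (f (13, v))).1 with h | h
      · exact absurd (two_side h (hW _ (mm 15 (by omega) (by omega)) rfl)
          (hW _ (mm 16 (by omega) (by omega)) rfl)
          (hf _ (mm 13 (by omega) (by omega)) _ (mm 15 (by omega) (by omega))
            (AA_loc (by decide)))
          (hf _ (mm 13 (by omega) (by omega)) _ (mm 16 (by omega) (by omega))
            (AA_loc (by decide)))) h1
      · exact h
    have e14 : f (14, v) = γ ∨ f (14, v) = δ := by
      rcases (hS (f (14, v))).1 with h | h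
      · exact absurd (two_side h (hW _ (mm 17 (by omega) (by omega)) rfl)
          (hW _ (mm 18 (by omega) (by omega)) rfl)
          (hf _ (mm 14 (by omega) (by omega)) _ (mm 17 (by omega) (by omega))
            (AA_loc (by decide)))
          (hf _ (mm 14 (by omega) (by omega)) _ (mm 18 (by omega) (by omega))
            (AA_loc (by decide)))) h2
      · exact h
    have e1 := two_side e13 (hU _ (mm 10 (by omega) (by omega)) rfl)
      (hU _ (mm 11 (by omega) (by omega)) rfl)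
      (hf _ (mm 13 (by omega) (by omega)) _ (mm 10 (by omega) (by omega)) (AA_loc (by decide)))
      (hf _ (mm 13 (by omega) (by omega)) _ (mm 11 (by omega) (by omega)) (AA_loc (by decide)))
    have e2 := two_side e14 (hU _ (mm 10 (by omega) (by omega)) rfl)
      (hU _ (mm 12 (by omega) (by omega)) rfl)
      (hf _ (mm 14 (by omega) (by omega)) _ (mm 10 (by omega) (by omega)) (AA_loc (by decide)))
      (hf _ (mm 14 (by omega) (by omega)) _ (mm 12 (by omega) (by omega)) (AA_loc (by decide)))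
    exact hf _ (mm 11 (by omega) (by omega)) _ (mm 12 (by omega) (by omega))
      (AA_loc (by decide)) (e1.symm.trans e2)
  classical
  let τ : ℕ → Bool := fun v => decide (f (15, v) ≠ f (16, v))
  have hτ : ∀ l : Lit ℕ, l.2 ∈ vars φ → f (dv l) ≠ f (xv l) → τ l.2 = l.1 := by
    rintro ⟨b, v⟩ hv h
    cases b with
    | true => exact decide_eq_true h
    | false =>
      by_contra h3
      have h4 : f (15, v) ≠ f (16, v) := by
        by_contra h5
        exact h3 (decide_eq_false (by rw [not_not]; exact h5))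
      exact hnot v hv h4 h
  refine ⟨τ, ?_⟩
  intro c hc
  obtain ⟨i, hi⟩ := List.mem_iff_getElem?.1 hc
  obtain ⟨hil, hv1, hv2, hv3⟩ := vars_mem hi
  have mm : ∀ s, s < 10 → ((s, i) : ℕ × ℕ) ∈ PP φ := fun s h => mem_PP.2 (Or.inl ⟨h, hil⟩)
  by_contra hno
  rw [not_or, not_or] at hno
  obtain ⟨n1, n2, n3⟩ := hno
  have d1 : f (dv c.1) = f (xv c.1) := by
    by_contra h; exact n1 (hτ _ hv1 h)
  have d2 : f (dv c.2.1) = f (xv c.2.1) := by
    by_contra h; exact n2 (hτ _ hv2 h)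
  have d3 : f (dv c.2.2) = f (xv c.2.2) := by
    by_contra h; exact n3 (hτ _ hv3 h)
  have step : ∀ s < 9, ∀ l : Lit ℕ, l.2 ∈ vars φ → f (dv l) = f (xv l) →
      ((s, i), dv l) ∈ crossL φ → ((s + 1, i), xv l) ∈ crossL φ → loc s (s + 1) = true →
      (f (s, i) = γ ∨ f (s, i) = δ) ∨ (f (s + 1, i) = γ ∨ f (s + 1, i) = δ) := by
    intro s hs l hl hd h1 h2 h3
    obtain ⟨k1, k2, k3, k4⟩ := mem_dv hl
    rcases (hS (f (s, i))).1 with h | h
    · rcases (hS (f (s + 1, i))).1 with h' | h'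
      · exfalso
        refine hf _ (mm s (by omega)) _ (mm (s + 1) (by omega)) (AA_loc h3) ?_
        refine two_side (hW _ k1 k3) h h' ?_ ?_
        · exact (hf _ (mm s (by omega)) _ k1 (AA_cross h1)).symm
        · rw [hd]
          exact (hf _ (mm (s + 1) (by omega)) _ k2 (AA_cross h2)).symm
      · exact Or.inr h'
    · exact Or.inl h
  have s1 := step 4 (by omega) c.1 hv1 d1 (mem_crossL.2 ⟨c, hi, by simp⟩)
    (mem_crossL.2 ⟨c, hi, by simp⟩) (by decide)
  have s2 := step 6 (by omega) c.2.1 hv2 d2 (mem_crossL.2 ⟨c, hi, by simp⟩)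
    (mem_crossL.2 ⟨c, hi, by simp⟩) (by decide)
  have s3 := step 8 (by omega) c.2.2 hv3 d3 (mem_crossL.2 ⟨c, hi, by simp⟩)
    (mem_crossL.2 ⟨c, hi, by simp⟩) (by decide)
  have tw : ∀ s < 10, (f (s, i) = γ ∨ f (s, i) = δ) → ∀ a < 4, ∀ b < 4, loc s a = true →
      loc s b = true → f (a, i) = f (b, i) := by
    intro s hs h a ha b hb h1 h2
    refine two_side h (hU _ (mm a (by omega)) ?_) (hU _ (mm b (by omega)) ?_)
      (hf _ (mm s hs) _ (mm a (by omega)) (AA_loc h1))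
      (hf _ (mm s hs) _ (mm b (by omega)) (AA_loc h2))
    · unfold bU; simp [ha]
    · unfold bU; simp [hb]
  have h01 : f (0, i) ≠ f (1, i) :=
    hf _ (mm 0 (by omega)) _ (mm 1 (by omega)) (AA_loc (by decide))
  have h03 : f (0, i) = f (3, i) := by
    rcases s3 with h | h
    · exact tw 8 (by omega) h 0 (by omega) 3 (by omega) (by decide) (by decide)
    · exact tw 9 (by omega) h 0 (by omega) 3 (by omega) (by decide) (by decide)
  have h12 : f (1, i) = f (2, i) := by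
    rcases s1 with h | h
    · exact tw 4 (by omega) h 1 (by omega) 2 (by omega) (by decide) (by decide)
    · exact absurd (h03.trans (tw 5 (by omega) h 1 (by omega) 3 (by omega) (by decide)
        (by decide)).symm) h01
  rcases s2 with h | h
  · exact h01 (h03.trans (tw 6 (by omega) h 1 (by omega) 3 (by omega) (by decide)
        (by decide)).symm)
  · exact h01 ((tw 7 (by omega) h 0 (by omega) 2 (by omega) (by decide)
        (by decide)).trans h12.symm)

end Pool.Agent.Q231.P8
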